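import Mathlib
import Pool.Agent.H615.VP.B1

/-! The Liouville function along linear forms at almost all scales. -/

set_option autoImplicit false

namespace Pool.Agent.H615.SP

open Finset Filter Topology
open Pool.Agent.Y958.U
open Pool.Agent.Y958.TC (ind)
open Pool.Agent.N675 (lamA)
open Pool.Agent.N675.FM (sf)
open Pool.Agent.H615.VP (L Q M A_LZ perV)

/-- the constant -/
noncomputable def kap (d : ℕ) : ℝ := if Odd d ∨ d = 2 then 0 else 1 - 1 / (2 ^ (d - 1) - 1)

lemma kap_le (d : ℕ) : kap d ≤ 1 := by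
  unfold kap
  split_ifs with h
  · norm_num
  · have : (1 : ℝ) ≤ 2 ^ (d - 1) := one_le_pow₀ (by norm_num)
    have h1 : (0 : ℝ) ≤ 1 / (2 ^ (d - 1) - 1) := div_nonneg (by norm_num) (by linarith)
    linarith

lemma kap_nonneg (d : ℕ) (hd : 1 ≤ d) : 0 ≤ kap d := by
  unfold kap
  split_ifs with h
  · exact le_rfl
  · push Not at h
    have h2 : 2 ≤ d - 1 := by
      obtain ⟨h3, h4⟩ := h
      rw [Nat.not_odd_iff_even] at h3
      obtain ⟨t, ht⟩ := h3
      omega
    have h3 : (2 : ℝ) ^ 2 ≤ 2 ^ (d - 1) := pow_le_pow_right₀ (by norm_num) h2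
    have h4 : (1 : ℝ) / (2 ^ (d - 1) - 1) ≤ 1 := by
      rw [div_le_one (by linarith)]
      linarith
    linarith

open Classical in
lemma sumQ {k : ℕ} (a : Fin k → ℕ) (b : Fin k → ℤ) (n : ℕ) : ∑ c : Fin k → Bool, Q a b c n = 1 := by
  unfold Q
  rw [Finset.sum_eq_single (fun j => sf (L a b j n))]
  · rw [if_pos fun _ => rfl]
  · intro c _ hc
    rw [if_neg]
    intro h
    exact hc (funext fun j => (h j).symm)
  · intro h
    exact absurd (mem_univ _) h

lemma FF_eq {k : ℕ} (a b : Fin k → ℕ) (n : ℕ) : FF a b n = ∏ j, lamA (L a (fun j => (b j : ℤ)) j n) := by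
  unfold FF
  apply prod_congr rfl
  intro j _
  unfold Pool.Agent.N675.lamA Pool.Agent.H615.VP.L
  congr 2

theorem zero_LZ {k : ℕ} (a b : Fin k → ℕ) (ha : ∀ j, 1 ≤ a j) (hab : ∀ i j, i ≠ j → a i * b j ≠ a j * b i)
    (hk : Odd k ∨ k = 2) (ε : ℝ) (hε : 0 < ε) : LZ {N | ε * N < |∑ n ∈ Icc 1 N, FF a b n|} := by
  classical
  have h1 : ∀ c : Fin k → Bool, LZ {N | ε / 2 ^ k * N < |M a (fun j => (b j : ℤ)) c univ N|} := by
    intro c
    refine A_LZ a _ c ha univ ?_ _ (by positivity)
    rcases hk with h | h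
    · left
      rw [card_univ, Fintype.card_fin]
      exact h
    · right
      refine ⟨by rw [card_univ, Fintype.card_fin]; exact h, fun i _ j _ hij => ?_⟩
      exact_mod_cast hab i j hij
  have h2 := LZ_fin univ _ fun c _ => h1 c
  refine LZ_sub ?_ h2
  intro N hN
  rw [Set.mem_setOf_eq] at hN ⊢
  by_contra hcon
  push Not at hcon
  have h3 : ∑ n ∈ Icc 1 N, FF a b n = ∑ c : Fin k → Bool, M a (fun j => (b j : ℤ)) c univ N := by
    unfold Pool.Agent.H615.VP.M
    rw [sum_comm]
    apply sum_congr rfl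
    intro n _
    rw [← mul_sum, sumQ, mul_one, FF_eq]
  have h4 : |∑ n ∈ Icc 1 N, FF a b n| ≤ ε * N := by
    rw [h3]
    refine (abs_sum_le_sum_abs _ _).trans ?_
    refine (sum_le_sum (g := fun _ => ε / 2 ^ k * (N : ℝ)) fun c hc => ?_).trans ?_
    · have := hcon c hc
      simpa using this
    · rw [sum_const, nsmul_eq_mul, card_univ, Fintype.card_fun, Fintype.card_bool, Fintype.card_fin]
      push_cast
      rw [show (2 : ℝ) ^ k * (ε / 2 ^ k * N) = (2 ^ k / 2 ^ k) * (ε * N) by ring,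
        div_self (by positivity), one_mul]
  linarith

theorem forms_LZ {k : ℕ} (hk : 1 ≤ k) (a b : Fin k → ℕ) (ha : ∀ j, 1 ≤ a j)
    (hab : ∀ i j, i ≠ j → a i * b j ≠ a j * b i) (ε : ℝ) (hε : 0 < ε) :
    LZ {N | (kap k + ε) * N < |∑ n ∈ Icc 1 N, FF a b n|} := by
  classical
  by_cases hk2 : Odd k ∨ k = 2
  · have h : kap k = 0 := by
      unfold kap
      rw [if_pos hk2]
    rw [h, zero_add]
    exact zero_LZ a b ha hab hk2 ε hε
  · have h : kap k = 1 - 1 / (2 ^ (k - 1) - 1) := by
      unfold kap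
      rw [if_neg hk2]
    have hev : Even k := by
      rw [← Nat.not_odd_iff_even]
      exact fun h => hk2 (Or.inl h)
    obtain ⟨m, rfl⟩ : ∃ m, k = m + 2 := by
      obtain ⟨t, ht⟩ := hev
      exact ⟨k - 2, by omega⟩
    rw [show m + 2 - 1 = m + 1 by omega] at h
    have hZ : (1 : ℝ) ≤ 2 ^ (m + 1) - 1 := by
      have := one_le_pow₀ (one_le_two : (1 : ℝ) ≤ 2) (n := m)
      rw [pow_succ]
      linarith
    set Z : ℝ := 2 ^ (m + 1) - 1 with hZd
    by_cases hc : 1 / Z ≤ ε / 2
    · -- trivial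
      refine LZ_sub ?_ LZ_empty
      intro N hN
      rw [Set.mem_setOf_eq] at hN
      exfalso
      have h1 : |∑ n ∈ Icc 1 N, FF a b n| ≤ N := by
        refine (abs_sum_le_sum_abs _ _).trans ?_
        refine (sum_le_sum (g := fun _ => (1 : ℝ)) fun n _ => FF_le a b n).trans ?_
        rw [sum_const, Nat.card_Icc, nsmul_eq_mul, mul_one]
        simp
      have h2 : (1 : ℝ) ≤ kap (m + 2) + ε := by
        rw [h]
        linarith
      have h3 : (1 : ℝ) * N ≤ (kap (m + 2) + ε) * N := mul_le_mul_of_nonneg_right h2 (Nat.cast_nonneg N)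
      linarith
    · push Not at hc
      set c : ℝ := 1 / Z - ε / 2 with hcd
      have hc0 : 0 < c := by linarith
      have hcZ : c * Z < 1 := by
        rw [hcd, sub_mul, one_div_mul_cancel (by linarith)]
        have : 0 < ε / 2 * Z := by positivity
        linarith
      have h1 := perV m c hc0 hcZ a b ha hab (fun _ => True) 1 le_rfl (fun _ => Iff.rfl) (by
        unfold dv
        simp)
      have hdv : dv (fun _ => True) 1 = 1 := by
        unfold dv
        simp
      rw [hdv] at h1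
      refine LZ_sub ?_ (LZ_union h1 (LZ_bdd {N : ℕ | N < ⌈6 / ε⌉₊ + 1} (⌈6 / ε⌉₊ + 1) fun n hn => hn))
      intro N hN
      rw [Set.mem_setOf_eq] at hN
      by_cases hNb : N < ⌈6 / ε⌉₊ + 1
      · exact Or.inr hNb
      · left
        rw [Set.mem_setOf_eq]
        have h2 : ∑ n ∈ Icc 1 N, ind (fun _ => True) n * FF a b n = ∑ n ∈ Icc 1 N, FF a b n := by
          apply sum_congr rfl
          intro n _
          unfold Pool.Agent.Y958.TC.ind
          rw [if_pos trivial, one_mul]
        rw [h2]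
        refine lt_of_le_of_lt ?_ hN
        rw [h, mul_one]
        have h3 : 6 / ε ≤ N := (Nat.le_ceil _).trans (by exact_mod_cast (by omega : ⌈6 / ε⌉₊ ≤ N))
        rw [div_le_iff₀ hε] at h3
        have h4 : 0 < 1 / Z := by positivity
        have h5 : (1 - c) * ((N : ℝ) + 1) + 1 = (1 - 1 / Z + ε / 2) * N + (1 - 1 / Z) + ε / 2 + 1 := by
          rw [hcd]
          ring
        rw [h5]
        have h6 : ε / 2 < 1 := by
          have : 1 / Z ≤ 1 := by
            rw [div_le_one (by linarith)]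
            exact hZ
          linarith
        nlinarith

end Pool.Agent.H615.SP
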