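import Mathlib
import Pool.Agent.H615.SP.A

/-! Products of linear polynomials on two-sided arithmetic progressions at almost all scales (the reduction to
linear forms with natural coefficients is adapted from the library `E8helper83.WS.Poly`). -/

set_option autoImplicit false

namespace Pool.Agent.H615.SP

open Finset Filter Topology
open Pool.Agent.Y958.U

/-- the Liouville function on the integers, `0` at `0` -/
noncomputable def lamZ (m : ℤ) : ℝ := if m = 0 then 0 else (-1) ^ ArithmeticFunction.cardFactors m.natAbs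

lemma lamZ_le (m : ℤ) : |lamZ m| ≤ 1 := by
  unfold lamZ
  split_ifs
  · simp
  · rw [abs_pow, abs_neg, abs_one, one_pow]

lemma lamZ_mul (m n : ℤ) : lamZ (m * n) = lamZ m * lamZ n := by
  unfold lamZ
  by_cases hm : m = 0
  · simp [hm]
  by_cases hn : n = 0
  · simp [hn]
  rw [if_neg (mul_ne_zero hm hn), if_neg hm, if_neg hn, Int.natAbs_mul,
    ArithmeticFunction.cardFactors_mul (Int.natAbs_ne_zero.2 hm) (Int.natAbs_ne_zero.2 hn), pow_add]

lemma lamZ_prod {k : ℕ} (g : Fin k → ℤ) : lamZ (∏ i, g i) = ∏ i, lamZ (g i) := by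
  have h : ∀ s : Finset (Fin k), lamZ (∏ i ∈ s, g i) = ∏ i ∈ s, lamZ (g i) := by
    intro s
    induction s using Finset.induction_on with
    | empty => simp [lamZ]
    | insert i s hi ih => rw [prod_insert hi, prod_insert hi, lamZ_mul, ih]
  exact h univ

lemma lamZ_neg (m : ℤ) : lamZ (-m) = lamZ m := by
  unfold lamZ
  rw [Int.natAbs_neg]
  simp only [neg_eq_zero]

/-- change of scale -/
lemma LZ_div (E : Set ℕ) (q c : ℕ) (hq : 1 ≤ q) (h : LZ E) : LZ {X | c ≤ X ∧ (X - c) / q ∈ E} := by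
  classical
  rw [LZ_iff] at h ⊢
  intro ε hε
  obtain ⟨X₀, hX₀⟩ := h (ε / 2) (by positivity)
  have hlog : Tendsto (fun X : ℕ => Real.log X) atTop atTop :=
    Real.tendsto_log_atTop.comp tendsto_natCast_atTop_atTop
  obtain ⟨X₁, hX₁⟩ := eventually_atTop.1 (hlog.eventually_ge_atTop (2 * q / ε))
  refine ⟨X₀ + X₁, fun X hX => ?_⟩
  have h1 : ls {X | c ≤ X ∧ (X - c) / q ∈ E} X ≤ q + ls E X := by
    rw [ls_eq, ls_eq]
    -- fibres of the map
    have hmap : ∀ n ∈ (Icc 1 X).filter (fun n => c ≤ n), (n - c) / q ∈ range (X + 1) := by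
      intro n hn
      rw [mem_filter, mem_Icc] at hn
      rw [mem_range]
      have := Nat.div_le_self (n - c) q
      omega
    have e1 : ∑ n ∈ Icc 1 X, li {X | c ≤ X ∧ (X - c) / q ∈ E} n =
        ∑ n ∈ (Icc 1 X).filter (fun n => c ≤ n), li {X | c ≤ X ∧ (X - c) / q ∈ E} n := by
      symm
      apply sum_subset (filter_subset _ _)
      intro n hn hn2
      apply li_not
      rintro ⟨h1, -⟩
      exact hn2 (mem_filter.2 ⟨hn, h1⟩)
    rw [e1, ← sum_fiberwise_of_maps_to hmap, sum_range_succ', ← sum_range_Icc (fun m => li E m) X]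
    have hfib : ∀ m : ℕ, ((((Icc 1 X).filter (fun n => c ≤ n)).filter (fun n => (n - c) / q = m)).card : ℝ) ≤ q := by
      intro m
      have : (((Icc 1 X).filter (fun n => c ≤ n)).filter (fun n => (n - c) / q = m)) ⊆
          Ico (c + q * m) (c + q * m + q) := by
        intro n hn
        rw [mem_filter, mem_filter] at hn
        obtain ⟨⟨-, h1⟩, h2⟩ := hn
        rw [mem_Ico]
        have h3 := Nat.div_mul_le_self (n - c) q
        have h4 := Nat.lt_div_mul_add (a := n - c) (show 0 < q by omega)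
        rw [h2, mul_comm] at h3 h4
        omega
      have h2 := card_le_card this
      rw [Nat.card_Ico, Nat.add_sub_cancel_left] at h2
      exact_mod_cast h2
    have hz : ∑ n ∈ ((Icc 1 X).filter (fun n => c ≤ n)).filter (fun n => (n - c) / q = 0),
        li {X | c ≤ X ∧ (X - c) / q ∈ E} n ≤ q := by
      refine (sum_le_sum (g := fun _ => (1 : ℝ)) fun n hn => ?_).trans ?_
      · rw [mem_filter, mem_filter, mem_Icc] at hn
        unfold li
        split_ifs
        · rw [div_le_one (by exact_mod_cast (by omega : 0 < n))]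
          exact_mod_cast hn.1.1.1
        · norm_num
      · rw [sum_const, nsmul_eq_mul, mul_one]
        exact hfib 0
    have hs : ∀ m ∈ range X, ∑ n ∈ ((Icc 1 X).filter (fun n => c ≤ n)).filter (fun n => (n - c) / q = m + 1),
        li {X | c ≤ X ∧ (X - c) / q ∈ E} n ≤ li E (m + 1) := by
      intro m _
      by_cases hm : m + 1 ∈ E
      · rw [li_mem hm]
        refine (sum_le_sum (g := fun _ => (1 : ℝ) / (q * ((m + 1 : ℕ) : ℝ))) fun n hn => ?_).trans ?_
        · rw [mem_filter, mem_filter, mem_Icc] at hn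
          have h3 := Nat.div_mul_le_self (n - c) q
          rw [hn.2, mul_comm] at h3
          have h4 : q * (m + 1) ≤ n := by omega
          have h5 : (0 : ℝ) < q * ((m + 1 : ℕ) : ℝ) := by
            have : (0 : ℝ) < q := by exact_mod_cast hq
            positivity
          unfold li
          split_ifs
          · exact one_div_le_one_div_of_le h5 (by exact_mod_cast h4)
          · positivity
        · rw [sum_const, nsmul_eq_mul]
          have hqR : (0 : ℝ) < q := by exact_mod_cast hq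
          have h5 : (0 : ℝ) ≤ 1 / (q * ((m + 1 : ℕ) : ℝ)) := by positivity
          refine (mul_le_mul_of_nonneg_right (hfib (m + 1)) h5).trans (le_of_eq ?_)
          field_simp
      · rw [li_not hm]
        apply le_of_eq
        apply sum_eq_zero
        intro n hn
        rw [mem_filter] at hn
        apply li_not
        rintro ⟨-, h2⟩
        rw [hn.2] at h2
        exact hm h2
    have := sum_le_sum hs
    linarith
  have h2 := hX₀ X (by omega)
  have h3 := hX₁ X (by omega)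
  rw [div_le_iff₀ hε] at h3
  linarith

/-- one-sided progressions -/
theorem one_sided (k : ℕ) (a b : Fin k → ℤ) (ha : ∀ i, a i ≠ 0)
    (hab : ∀ i j, i ≠ j → a i * b j ≠ a j * b i) (q : ℕ) (hq : 1 ≤ q) (r : ℤ) :
    ∃ (r' : ℕ) (A B : Fin k → ℕ), (∀ i, 1 ≤ A i) ∧ (∀ i j, i ≠ j → A i * B j ≠ A j * B i) ∧ ∀ X : ℕ, r' ≤ X →
      |∑ v ∈ (Ioc (0 : ℤ) X).filter (fun v => v ≡ r [ZMOD q]), lamZ (∏ i, (a i * v + b i))| ≤
        r' + |∑ n ∈ Icc 1 ((X - r') / q), FF A B n| := by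
  classical
  have hq0 : (0 : ℤ) < q := by exact_mod_cast hq
  have hqR : (0 : ℝ) < q := by exact_mod_cast hq
  -- a large representative of the class
  set S : ℕ := ∑ i, (b i).natAbs with hS
  obtain ⟨r', hr1, hr2⟩ : ∃ r' : ℕ, ((r' : ℕ) : ℤ) ≡ r [ZMOD q] ∧ S ≤ r' := by
    have h1 : 0 ≤ r % (q : ℤ) := Int.emod_nonneg _ hq0.ne'
    refine ⟨(r % (q : ℤ)).toNat + q * S, ?_, ?_⟩
    · push_cast
      rw [Int.toNat_of_nonneg h1]
      have h2 : r % (q : ℤ) + q * (S : ℤ) ≡ r % (q : ℤ) + 0 [ZMOD q] :=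
        Int.ModEq.add_left _ ((Int.modEq_zero_iff_dvd).2 (dvd_mul_right _ _))
      rw [add_zero] at h2
      exact h2.trans (Int.mod_modEq r q)
    · calc S = 1 * S := (one_mul S).symm
        _ ≤ q * S := Nat.mul_le_mul_right S hq
        _ ≤ _ := Nat.le_add_left _ _
  have hbr : ∀ i, |b i| ≤ (r' : ℤ) := by
    intro i
    have h1 : (b i).natAbs ≤ S := single_le_sum (f := fun i => (b i).natAbs) (fun _ _ => Nat.zero_le _) (mem_univ i)
    have h2 : ((b i).natAbs : ℤ) ≤ r' := by exact_mod_cast h1.trans hr2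
    rwa [Int.natCast_natAbs] at h2
  -- the natural forms
  set A : Fin k → ℕ := fun i => (a i).natAbs * q with hA
  set B : Fin k → ℕ := fun i => ((a i).sign * (a i * r' + b i)).toNat with hB
  have hsgn : ∀ i, (a i).sign * a i = ((a i).natAbs : ℤ) := by
    intro i
    rw [Int.sign_mul_self_eq_abs, Int.natCast_natAbs]
  have hsq : ∀ i, (a i).sign * (a i).sign = 1 := by
    intro i
    rcases lt_trichotomy (a i) 0 with h | h | h
    · rw [Int.sign_eq_neg_one_of_neg h]; norm_num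
    · exact absurd h (ha i)
    · rw [Int.sign_eq_one_of_pos h]; norm_num
  have hsb : ∀ i, |(a i).sign * b i| = |b i| := by
    intro i
    rcases lt_trichotomy (a i) 0 with h | h | h
    · rw [Int.sign_eq_neg_one_of_neg h, neg_one_mul, abs_neg]
    · exact absurd h (ha i)
    · rw [Int.sign_eq_one_of_pos h, one_mul]
  have hBnn : ∀ i, 0 ≤ (a i).sign * (a i * r' + b i) := by
    intro i
    have h1 : (a i).sign * (a i * r' + b i) = ((a i).natAbs : ℤ) * r' + (a i).sign * b i := by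
      rw [mul_add, ← mul_assoc, hsgn]
    rw [h1]
    have h2 : (1 : ℤ) ≤ ((a i).natAbs : ℤ) := by
      have := Int.natAbs_pos.2 (ha i)
      exact_mod_cast this
    have h3 := neg_abs_le ((a i).sign * b i)
    rw [hsb] at h3
    have h4 := hbr i
    have h5 : (0 : ℤ) ≤ r' := Int.natCast_nonneg _
    nlinarith
  have hBc : ∀ i, ((B i : ℕ) : ℤ) = (a i).sign * (a i * r' + b i) := fun i => Int.toNat_of_nonneg (hBnn i)
  have hA1 : ∀ i, 1 ≤ A i := fun i => Nat.one_le_iff_ne_zero.2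
    (Nat.mul_ne_zero (Int.natAbs_ne_zero.2 (ha i)) (by omega))
  have hAB : ∀ i j, i ≠ j → A i * B j ≠ A j * B i := by
    intro i j hij h
    have h1 : ((A i * B j : ℕ) : ℤ) = ((A j * B i : ℕ) : ℤ) := by rw [h]
    push_cast [hA] at h1
    rw [hBc, hBc, ← Int.sign_mul_self_eq_abs, ← Int.sign_mul_self_eq_abs] at h1
    have h2 : ((a i).sign * (a j).sign * q) * (a i * b j - a j * b i) = 0 := by linear_combination h1
    have h3 : ∀ i, (a i).sign ≠ 0 := fun i h => by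
      have := hsq i
      rw [h] at this
      norm_num at this
    rcases mul_eq_zero.1 h2 with h4 | h4
    · exact (mul_ne_zero (mul_ne_zero (h3 i) (h3 j)) hq0.ne') h4
    · exact hab i j hij (sub_eq_zero.1 h4)
  have hval : ∀ n : ℕ, 1 ≤ n → lamZ (∏ i, (a i * ((r' : ℤ) + q * n) + b i)) = FF A B n := by
    intro n hn
    rw [lamZ_prod]
    unfold FF
    apply prod_congr rfl
    intro i _
    have h1 : a i * ((r' : ℤ) + q * n) + b i = (a i).sign * ((A i * n + B i : ℕ) : ℤ) := by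
      push_cast
      rw [hBc]
      simp only [hA]
      push_cast
      rw [← Int.sign_mul_self_eq_abs]
      linear_combination (-(a i * q * n) - (a i * r' + b i)) * hsq i
    have h2 : A i * n + B i ≠ 0 := by
      have := Nat.mul_ne_zero (Nat.one_le_iff_ne_zero.1 (hA1 i)) (Nat.one_le_iff_ne_zero.1 hn)
      omega
    have h3 : lamZ ((A i * n + B i : ℕ) : ℤ) = (-1 : ℝ) ^ ArithmeticFunction.cardFactors (A i * n + B i) := by
      unfold lamZ
      rw [if_neg (by exact_mod_cast h2), Int.natAbs_natCast]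
    rw [h1, lamZ_mul, h3]
    have h4 : lamZ ((a i).sign) = 1 := by
      unfold lamZ
      rcases lt_trichotomy (a i) 0 with h | h | h
      · rw [Int.sign_eq_neg_one_of_neg h]; simp
      · exact absurd h (ha i)
      · rw [Int.sign_eq_one_of_pos h]; simp
    rw [h4, one_mul]
  refine ⟨r', A, B, hA1, hAB, fun X hX => ?_⟩
  -- split
  set N : ℕ := (X - r') / q with hN
  have hset : (Ioc (0 : ℤ) X).filter (fun v => v ≡ r [ZMOD q]) =
      (Ioc (0 : ℤ) r').filter (fun v => v ≡ r [ZMOD q]) ∪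
        (Icc 1 N).image (fun n : ℕ => (r' : ℤ) + q * n) := by
    ext v
    simp only [mem_union, mem_filter, mem_Ioc, mem_image, mem_Icc]
    constructor
    · rintro ⟨⟨h1, h2⟩, h3⟩
      by_cases h4 : v ≤ r'
      · left
        exact ⟨⟨h1, h4⟩, h3⟩
      · right
        push Not at h4
        have h5 : (q : ℤ) ∣ v - r' := by
          have h6 : ((r' : ℕ) : ℤ) ≡ v [ZMOD q] := hr1.trans h3.symm
          exact h6.dvd
        obtain ⟨m, hm⟩ := h5
        have hm0 : 0 < m := by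
          by_contra hcon
          push Not at hcon
          have : (q : ℤ) * m ≤ 0 := mul_nonpos_of_nonneg_of_nonpos hq0.le hcon
          omega
        refine ⟨m.toNat, ⟨by omega, ?_⟩, ?_⟩
        · rw [hN, Nat.le_div_iff_mul_le (by omega)]
          have h7 : ((m.toNat * q : ℕ) : ℤ) ≤ ((X - r' : ℕ) : ℤ) := by
            rw [Nat.cast_sub (by omega)]
            push_cast
            rw [Int.toNat_of_nonneg hm0.le, mul_comm]
            omega
          exact_mod_cast h7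
        · rw [Int.toNat_of_nonneg hm0.le]
          omega
    · rintro (⟨⟨h1, h2⟩, h3⟩ | ⟨n, ⟨h1, h2⟩, rfl⟩)
      · refine ⟨⟨h1, ?_⟩, h3⟩
        have : (r' : ℤ) ≤ X := by exact_mod_cast (by omega : r' ≤ X)
        omega
      · have h5 : N * q ≤ X - r' := Nat.div_mul_le_self _ _
        have h6 : n * q ≤ N * q := Nat.mul_le_mul_right q h2
        have h7 : n * q + r' ≤ X := by omega
        have h8 : ((n : ℤ) * q + r') ≤ X := by exact_mod_cast h7
        have h9 : (0 : ℤ) < (q : ℤ) * n := mul_pos hq0 (by exact_mod_cast h1)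
        refine ⟨⟨by positivity, by linarith⟩, ?_⟩
        have h10 : (r' : ℤ) + q * n ≡ r' + 0 [ZMOD q] :=
          Int.ModEq.add_left _ ((Int.modEq_zero_iff_dvd).2 (dvd_mul_right _ _))
        rw [add_zero] at h10
        exact h10.trans hr1
  have hdisj : Disjoint ((Ioc (0 : ℤ) r').filter (fun v => v ≡ r [ZMOD q]))
      ((Icc 1 N).image (fun n : ℕ => (r' : ℤ) + q * n)) := by
    rw [Finset.disjoint_left]
    intro v h1 h2
    rw [mem_filter, mem_Ioc] at h1
    rw [mem_image] at h2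
    obtain ⟨n, hn, rfl⟩ := h2
    rw [mem_Icc] at hn
    have h9 : (0 : ℤ) < (q : ℤ) * n := mul_pos hq0 (by exact_mod_cast hn.1)
    omega
  rw [hset, sum_union hdisj, sum_image (by
    intro x _ y _ hxy
    simp only at hxy
    have : (q : ℤ) * x = q * y := by linarith
    exact_mod_cast mul_left_cancel₀ hq0.ne' this)]
  rw [sum_congr rfl (fun n hn => hval n (mem_Icc.1 hn).1)]
  have h1 : |∑ v ∈ (Ioc (0 : ℤ) r').filter (fun v => v ≡ r [ZMOD q]), lamZ (∏ i, (a i * v + b i))| ≤ r' := by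
    calc |∑ v ∈ (Ioc (0 : ℤ) r').filter (fun v => v ≡ r [ZMOD q]), lamZ (∏ i, (a i * v + b i))| ≤
          ∑ v ∈ (Ioc (0 : ℤ) r').filter (fun v => v ≡ r [ZMOD q]), |lamZ (∏ i, (a i * v + b i))| :=
          abs_sum_le_sum_abs _ _
      _ ≤ ∑ v ∈ (Ioc (0 : ℤ) r').filter (fun v => v ≡ r [ZMOD q]), (1 : ℝ) :=
          sum_le_sum fun v _ => lamZ_le _
      _ ≤ ∑ v ∈ Ioc (0 : ℤ) r', (1 : ℝ) :=
          sum_le_sum_of_subset_of_nonneg (filter_subset _ _) fun _ _ _ => zero_le_one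
      _ = r' := by simp
  have h6 := abs_add_le (∑ v ∈ (Ioc (0 : ℤ) r').filter (fun v => v ≡ r [ZMOD q]), lamZ (∏ i, (a i * v + b i)))
    (∑ n ∈ Icc 1 N, FF A B n)
  linarith

/-- two-sided progressions -/
theorem two_sided (k : ℕ) (hk : 1 ≤ k) (u : ℤ) (a b : Fin k → ℤ) (ha : ∀ i, a i ≠ 0)
    (hab : ∀ i j, i ≠ j → a i * b j ≠ a j * b i) (q : ℕ) (hq : 1 ≤ q) (r : ℤ) (ε : ℝ) (hε : 0 < ε) :
    LZ {X : ℕ | (kap k + ε) * (((Icc (-(X : ℤ)) X).filter (fun v => v ≡ r [ZMOD q])).card : ℝ) <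
      |∑ v ∈ (Icc (-(X : ℤ)) X).filter (fun v => v ≡ r [ZMOD q]), lamZ (u * ∏ i, (a i * v + b i))|} := by
  classical
  have hq0 : (0 : ℤ) < q := by exact_mod_cast hq
  have hqR : (0 : ℝ) < q := by exact_mod_cast hq
  obtain ⟨r₁, A₁, B₁, hA₁, hAB₁, H₁⟩ := one_sided k a b ha hab q hq r
  obtain ⟨r₂, A₂, B₂, hA₂, hAB₂, H₂⟩ := one_sided k (fun i => -a i) b (fun i => neg_ne_zero.2 (ha i))
    (fun i j hij h => hab i j hij (by linarith)) q hq (-r)
  have hLZ₁ := LZ_div _ q r₁ hq (forms_LZ hk A₁ B₁ hA₁ hAB₁ (ε / 4) (by positivity))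
  have hLZ₂ := LZ_div _ q r₂ hq (forms_LZ hk A₂ B₂ hA₂ hAB₂ (ε / 4) (by positivity))
  set X₀ : ℕ := r₁ + r₂ + ⌈(r₁ + r₂ + 3 + ε) * q / ε⌉₊ + 1 with hX₀
  refine LZ_sub ?_ (LZ_union (LZ_union hLZ₁ hLZ₂) (LZ_bdd {X : ℕ | X < X₀} X₀ fun n hn => hn))
  intro X hXm
  rw [Set.mem_setOf_eq] at hXm
  by_cases hXb : X < X₀
  · exact Or.inr hXb
  left
  by_contra hcon
  rw [Set.mem_union, not_or] at hcon
  have hXr : r₁ ≤ X ∧ r₂ ≤ X := by omega
  have hc1 : |∑ n ∈ Icc 1 ((X - r₁) / q), FF A₁ B₁ n| ≤ (kap k + ε / 4) * (((X - r₁) / q : ℕ) : ℝ) := by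
    by_contra h
    exact hcon.1 ⟨hXr.1, not_le.1 h⟩
  have hc2 : |∑ n ∈ Icc 1 ((X - r₂) / q), FF A₂ B₂ n| ≤ (kap k + ε / 4) * (((X - r₂) / q : ℕ) : ℝ) := by
    by_contra h
    exact hcon.2 ⟨hXr.2, not_le.1 h⟩
  refine absurd hXm (not_lt.2 ?_)
  set g : ℤ → ℝ := fun v => lamZ (∏ i, (a i * v + b i)) with hg
  set T : ℤ → Prop := fun v => v ≡ r [ZMOD q] with hT
  have hu : |∑ v ∈ (Icc (-(X : ℤ)) X).filter T, lamZ (u * ∏ i, (a i * v + b i))| ≤
      |∑ v ∈ (Icc (-(X : ℤ)) X).filter T, g v| := by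
    have h1 : ∑ v ∈ (Icc (-(X : ℤ)) X).filter T, lamZ (u * ∏ i, (a i * v + b i)) =
        lamZ u * ∑ v ∈ (Icc (-(X : ℤ)) X).filter T, g v := by
      rw [mul_sum]
      exact sum_congr rfl fun v _ => lamZ_mul _ _
    rw [h1, abs_mul]
    have := lamZ_le u
    have h2 := abs_nonneg (∑ v ∈ (Icc (-(X : ℤ)) X).filter T, g v)
    nlinarith
  refine hu.trans ?_
  -- split into positive, zero and negative
  have hsplit : (Icc (-(X : ℤ)) X).filter T = ((Ioc (0 : ℤ) X).filter T ∪ ((Icc (0 : ℤ) 0).filter T)) ∪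
      ((Ioc (0 : ℤ) X).filter (fun v => v ≡ -r [ZMOD q])).image (fun v => -v) := by
    ext v
    simp only [mem_union, mem_filter, mem_Ioc, mem_Icc, mem_image, hT]
    constructor
    · rintro ⟨⟨h1, h2⟩, h3⟩
      rcases lt_trichotomy v 0 with h | h | h
      · right
        refine ⟨-v, ⟨⟨by omega, by omega⟩, ?_⟩, by ring⟩
        exact h3.neg
      · left; right
        exact ⟨⟨by omega, by omega⟩, h3⟩
      · left; left
        exact ⟨⟨by omega, by omega⟩, h3⟩
    · rintro ((⟨⟨h1, h2⟩, h3⟩ | ⟨⟨h1, h2⟩, h3⟩) | ⟨w, ⟨⟨h1, h2⟩, h3⟩, rfl⟩)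
      · exact ⟨⟨by omega, by omega⟩, h3⟩
      · exact ⟨⟨by omega, by omega⟩, h3⟩
      · refine ⟨⟨by omega, by omega⟩, ?_⟩
        have := h3.neg
        rwa [neg_neg] at this
  have hd1 : Disjoint ((Ioc (0 : ℤ) X).filter T) ((Icc (0 : ℤ) 0).filter T) := by
    rw [Finset.disjoint_left]
    intro v h1 h2
    rw [mem_filter, mem_Ioc] at h1
    rw [mem_filter, mem_Icc] at h2
    omega
  have hd2 : Disjoint ((Ioc (0 : ℤ) X).filter T ∪ ((Icc (0 : ℤ) 0).filter T))
      (((Ioc (0 : ℤ) X).filter (fun v => v ≡ -r [ZMOD q])).image (fun v => -v)) := by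
    rw [Finset.disjoint_left]
    intro v h1 h2
    rw [mem_union, mem_filter, mem_filter, mem_Ioc, mem_Icc] at h1
    rw [mem_image] at h2
    obtain ⟨w, hw, rfl⟩ := h2
    rw [mem_filter, mem_Ioc] at hw
    rcases h1 with h1 | h1 <;> omega
  have hsum : ∑ v ∈ (Icc (-(X : ℤ)) X).filter T, g v = (∑ v ∈ (Ioc (0 : ℤ) X).filter T, g v +
      ∑ v ∈ (Icc (0 : ℤ) 0).filter T, g v) +
      ∑ v ∈ (Ioc (0 : ℤ) X).filter (fun v => v ≡ -r [ZMOD q]), lamZ (∏ i, (-a i * v + b i)) := by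
    rw [hsplit, sum_union hd2, sum_union hd1, sum_image (fun x _ y _ h => neg_injective h)]
    congr 1
    apply sum_congr rfl
    intro v _
    simp only [hg]
    congr 1
    apply prod_congr rfl
    intro i _
    ring
  have h0 : |∑ v ∈ (Icc (0 : ℤ) 0).filter T, g v| ≤ 1 := by
    calc |∑ v ∈ (Icc (0 : ℤ) 0).filter T, g v| ≤ ∑ v ∈ (Icc (0 : ℤ) 0).filter T, |g v| := abs_sum_le_sum_abs _ _
      _ ≤ ∑ v ∈ (Icc (0 : ℤ) 0).filter T, (1 : ℝ) := sum_le_sum fun v _ => lamZ_le _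
      _ ≤ ∑ v ∈ Icc (0 : ℤ) 0, (1 : ℝ) := sum_le_sum_of_subset_of_nonneg (filter_subset _ _) fun _ _ _ => zero_le_one
      _ = 1 := by simp
  have hX0 : (0 : ℝ) ≤ (X : ℝ) / q := by positivity
  have hκ := kap_nonneg k hk
  have hdiv : ∀ r' : ℕ, (((X - r') / q : ℕ) : ℝ) ≤ (X : ℝ) / q := by
    intro r'
    refine (Nat.cast_div_le).trans ?_
    apply div_le_div_of_nonneg_right _ hqR.le
    exact_mod_cast Nat.sub_le _ _
  have h1 : |∑ v ∈ (Ioc (0 : ℤ) X).filter T, g v| ≤ r₁ + (kap k + ε / 4) * (X / q) := by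
    refine (H₁ X (by omega)).trans ?_
    have := mul_le_mul_of_nonneg_left (hdiv r₁) (by positivity : 0 ≤ kap k + ε / 4)
    linarith
  have h2 : |∑ v ∈ (Ioc (0 : ℤ) X).filter (fun v => v ≡ -r [ZMOD q]), lamZ (∏ i, (-a i * v + b i))| ≤
      r₂ + (kap k + ε / 4) * (X / q) := by
    refine (H₂ X (by omega)).trans ?_
    have := mul_le_mul_of_nonneg_left (hdiv r₂) (by positivity : 0 ≤ kap k + ε / 4)
    linarith
  -- the number of terms
  have hcard : 2 * ((X : ℝ) / q) - 1 ≤ (((Icc (-(X : ℤ)) X).filter T).card : ℝ) := by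
    have h3 := Int.Ioc_filter_modEq_card (-(X : ℤ)) (X : ℤ) hq0 r
    have h4 : ((Ioc (-(X : ℤ)) X).filter T).card ≤ ((Icc (-(X : ℤ)) X).filter T).card :=
      card_le_card (filter_subset_filter _ Ioc_subset_Icc_self)
    have h5 : (⌊(((X : ℤ) : ℚ) - (r : ℤ)) / ((q : ℤ) : ℚ)⌋ : ℤ) - ⌊(((-(X : ℤ) : ℤ) : ℚ) - (r : ℤ)) / ((q : ℤ) : ℚ)⌋ ≤
        (((Icc (-(X : ℤ)) X).filter T).card : ℤ) := by
      refine le_trans ?_ (Nat.cast_le.2 h4)
      refine le_trans (le_max_left _ 0) (le_of_eq ?_)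
      exact h3.symm
    have h6 : (((X : ℤ) : ℚ) - (r : ℤ)) / ((q : ℤ) : ℚ) - 1 - (((-(X : ℤ) : ℤ) : ℚ) - (r : ℤ)) / ((q : ℤ) : ℚ) ≤
        (((Icc (-(X : ℤ)) X).filter T).card : ℚ) := by
      have h7 := Int.sub_one_lt_floor ((((X : ℤ) : ℚ) - (r : ℤ)) / ((q : ℤ) : ℚ))
      have h8 := Int.floor_le ((((-(X : ℤ) : ℤ) : ℚ) - (r : ℤ)) / ((q : ℤ) : ℚ))
      have h9 : ((⌊(((X : ℤ) : ℚ) - (r : ℤ)) / ((q : ℤ) : ℚ)⌋ : ℤ) : ℚ) -
          ((⌊(((-(X : ℤ) : ℤ) : ℚ) - (r : ℤ)) / ((q : ℤ) : ℚ)⌋ : ℤ) : ℚ) ≤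
          (((Icc (-(X : ℤ)) X).filter T).card : ℚ) := by exact_mod_cast h5
      linarith
    have hqQ : (0 : ℚ) < q := by exact_mod_cast hq
    have h7 : 2 * ((X : ℚ) / q) - 1 ≤ (((Icc (-(X : ℤ)) X).filter T).card : ℚ) := by
      refine le_trans (le_of_eq ?_) h6
      push_cast
      field_simp
      ring
    have h8 : ((2 * ((X : ℚ) / q) - 1 : ℚ) : ℝ) ≤ (((((Icc (-(X : ℤ)) X).filter T).card : ℕ) : ℚ) : ℝ) :=
      Rat.cast_le.2 h7
    push_cast at h8
    exact h8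
  rw [hsum]
  have h3 := abs_add_le (∑ v ∈ (Ioc (0 : ℤ) X).filter T, g v + ∑ v ∈ (Icc (0 : ℤ) 0).filter T, g v)
    (∑ v ∈ (Ioc (0 : ℤ) X).filter (fun v => v ≡ -r [ZMOD q]), lamZ (∏ i, (-a i * v + b i)))
  have h4 := abs_add_le (∑ v ∈ (Ioc (0 : ℤ) X).filter T, g v) (∑ v ∈ (Icc (0 : ℤ) 0).filter T, g v)
  have h5 : r₁ + r₂ + 3 + ε ≤ ε * ((X : ℝ) / q) := by
    have h6 : (r₁ + r₂ + 3 + ε) * q / ε ≤ X :=
      (Nat.le_ceil _).trans (by exact_mod_cast (by omega : ⌈(r₁ + r₂ + 3 + ε) * q / ε⌉₊ ≤ X))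
    rw [div_le_iff₀ hε] at h6
    have h7 : ε * ((X : ℝ) / q) = X * ε / q := by ring
    rw [h7, le_div_iff₀ hqR]
    exact h6
  have h6 : (kap k + ε) * (2 * ((X : ℝ) / q) - 1) ≤ (kap k + ε) * (((Icc (-(X : ℤ)) X).filter T).card : ℝ) :=
    mul_le_mul_of_nonneg_left hcard (by positivity)
  refine le_trans ?_ h6
  have h7 := kap_le k
  nlinarith

end Pool.Agent.H615.SP
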