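import Mathlib
import Pool.Agent.H615.SP.B

/-! Polynomials whose roots are rational and simple: one exceptional set of scales (the factorisation is adapted from
the library `E8helper83.WS.Split`). -/

set_option autoImplicit false

namespace Pool.Agent.H615.SP

open Finset Polynomial
open Pool.Agent.Y958.U

theorem split_forms (f : ℤ[X]) (hdeg : 1 ≤ f.natDegree) (hs : (f.map (Int.castRingHom ℚ)).Splits)
    (hsq : Squarefree (f.map (Int.castRingHom ℚ))) :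
    ∃ a b : Fin f.natDegree → ℤ, (∀ i, a i ≠ 0) ∧ (∀ i j, i ≠ j → a i * b j ≠ a j * b i) ∧
      ∃ D : ℤ, D ≠ 0 ∧ ∀ v : ℤ, D * f.eval v = f.leadingCoeff * ∏ i, (a i * v + b i) := by
  classical
  set F : ℚ[X] := f.map (Int.castRingHom ℚ) with hF
  have hinj : Function.Injective (Int.castRingHom ℚ) := (Int.castRingHom ℚ).injective_int
  have hnd : F.roots.Nodup := nodup_roots (PerfectField.separable_iff_squarefree.2 hsq)
  set L : List ℚ := F.roots.toList with hL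
  have hLnd : L.Nodup := by
    rw [← Multiset.coe_nodup, hL, Multiset.coe_toList]
    exact hnd
  have hlen : L.length = f.natDegree := by
    rw [hL, Multiset.length_toList, ← hs.natDegree_eq_card_roots, hF, natDegree_map_eq_of_injective hinj]
  set ρ : Fin L.length → ℚ := fun i => L.get i with hρ
  have hρinj : Function.Injective ρ := List.nodup_iff_injective_get.1 hLnd
  set a : Fin L.length → ℤ := fun i => ((ρ i).den : ℤ) with ha
  set b : Fin L.length → ℤ := fun i => -(ρ i).num with hb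
  have ha0 : ∀ i, a i ≠ 0 := fun i => by
    simp only [ha]
    exact_mod_cast (ρ i).den_ne_zero
  have hab : ∀ i j, i ≠ j → a i * b j ≠ a j * b i := by
    intro i j hij h
    apply hij
    apply hρinj
    simp only [ha, hb] at h
    rw [Rat.eq_iff_mul_eq_mul]
    linear_combination h
  rw [← hlen]
  refine ⟨a, b, ha0, hab, ?_⟩
  set D : ℤ := ∏ i, a i with hD
  have hD0 : D ≠ 0 := prod_ne_zero_iff.2 fun i _ => ha0 i
  have hval : ∀ v : ℤ, D * f.eval v = f.leadingCoeff * ∏ i, (a i * v + b i) := by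
    intro v
    have h1 : ((f.eval v : ℤ) : ℚ) = F.eval (v : ℚ) := by
      rw [hF, eval_intCast_map]
      simp
    have h2 : F = C F.leadingCoeff * (F.roots.map (fun a => X - C a)).prod := hs.eq_prod_roots
    have h3 : (F.roots.map (fun a => X - C a)).prod = ∏ i : Fin L.length, (X - C (ρ i)) := by
      rw [← Multiset.coe_toList F.roots, ← hL, Multiset.map_coe, Multiset.prod_coe]
      rw [← List.prod_ofFn]
      congr 1
      conv_lhs => rw [← List.ofFn_get L]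
      rw [List.map_ofFn]
      rfl
    have hlc : F.leadingCoeff = ((f.leadingCoeff : ℤ) : ℚ) := by
      rw [hF, leadingCoeff_map_of_injective hinj]
      rfl
    have h4 : F.eval (v : ℚ) = (f.leadingCoeff : ℚ) * ∏ i, ((v : ℚ) - ρ i) := by
      conv_lhs => rw [h2, h3]
      rw [eval_mul, eval_C, eval_prod, hlc]
      simp
    have h5 : ((D * f.eval v : ℤ) : ℚ) = ((f.leadingCoeff * ∏ i, (a i * v + b i) : ℤ) : ℚ) := by
      push_cast
      rw [h1, h4]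
      have h6 : ∏ i, ((a i : ℤ) : ℚ) * ((v : ℚ) - ρ i) = ∏ i, (((a i : ℤ) : ℚ) * v + ((b i : ℤ) : ℚ)) := by
        apply prod_congr rfl
        intro i _
        simp only [ha, hb]
        push_cast
        have h7 : ((ρ i).den : ℚ) * ρ i = (ρ i).num := by
          rw [mul_comm]
          exact Rat.mul_den_eq_num (ρ i)
        linear_combination -h7
      rw [hD]
      push_cast
      rw [← h6, prod_mul_distrib]
      ring
    exact_mod_cast h5
  exact ⟨D, hD0, hval⟩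

/-- the data -/
abbrev Idx : Type := (Σ k : ℕ, (Fin k → ℤ) × (Fin k → ℤ)) × ℤ × ℕ × ℤ × ℕ

/-- the bad scales -/
def bad (t : Idx) : Set ℕ := {X : ℕ | (1 ≤ t.1.1 ∧ (∀ i, t.1.2.1 i ≠ 0) ∧
  (∀ i j, i ≠ j → t.1.2.1 i * t.1.2.2 j ≠ t.1.2.1 j * t.1.2.2 i) ∧ 1 ≤ t.2.2.1) ∧
  (kap t.1.1 + 1 / ((t.2.2.2.2 : ℝ) + 1)) * (((Icc (-(X : ℤ)) X).filter (fun v => v ≡ t.2.2.2.1 [ZMOD t.2.2.1])).card : ℝ) <
      |∑ v ∈ (Icc (-(X : ℤ)) X).filter (fun v => v ≡ t.2.2.2.1 [ZMOD t.2.2.1]),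
        lamZ (t.2.1 * ∏ i, (t.1.2.1 i * v + t.1.2.2 i))|}

theorem bad_LZ (t : Idx) : LZ (bad t) := by
  classical
  by_cases ht : 1 ≤ t.1.1 ∧ (∀ i, t.1.2.1 i ≠ 0) ∧
      (∀ i j, i ≠ j → t.1.2.1 i * t.1.2.2 j ≠ t.1.2.1 j * t.1.2.2 i) ∧ 1 ≤ t.2.2.1
  · refine LZ_sub (fun X hX => hX.2) (two_sided t.1.1 ht.1 t.2.1 t.1.2.1 t.1.2.2 ht.2.1 ht.2.2.1 t.2.2.1
      ht.2.2.2 t.2.2.2.1 _ (by positivity))
  · refine LZ_sub ?_ LZ_empty
    rintro X ⟨h, -⟩
    exact absurd h ht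

theorem final : ∃ E : Set ℕ, LZ E ∧ ∀ f : ℤ[X], 1 ≤ f.natDegree → (f.map (Int.castRingHom ℚ)).Splits →
    Squarefree (f.map (Int.castRingHom ℚ)) → ∀ (q : ℕ) (r : ℤ), 1 ≤ q → ∀ ε : ℝ, 0 < ε →
      ∃ X₀ : ℕ, ∀ X : ℕ, X₀ ≤ X → X ∉ E →
        |∑ v ∈ (Icc (-(X : ℤ)) X).filter (fun v => v ≡ r [ZMOD q]), lamZ (f.eval v)| ≤
          (kap f.natDegree + ε) * (((Icc (-(X : ℤ)) X).filter (fun v => v ≡ r [ZMOD q])).card : ℝ) := by
  classical
  have : Nonempty Idx := ⟨⟨⟨0, Fin.elim0, Fin.elim0⟩, 0, 0, 0, 0⟩⟩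
  obtain ⟨E, hE, hdiag⟩ := diag' bad bad_LZ
  refine ⟨E, hE, fun f hdeg hs hsq q r hq ε hε => ?_⟩
  obtain ⟨a, b, ha, hab, D, hD, hval⟩ := split_forms f hdeg hs hsq
  obtain ⟨l, hl⟩ := exists_nat_one_div_lt hε
  obtain ⟨X₀, hX₀⟩ := hdiag ⟨⟨f.natDegree, a, b⟩, f.leadingCoeff, q, r, l⟩
  refine ⟨X₀, fun X hX hXE => ?_⟩
  have h1 : |∑ v ∈ (Icc (-(X : ℤ)) X).filter (fun v => v ≡ r [ZMOD q]),
      lamZ (f.leadingCoeff * ∏ i, (a i * v + b i))| ≤
      (kap f.natDegree + 1 / ((l : ℝ) + 1)) * (((Icc (-(X : ℤ)) X).filter (fun v => v ≡ r [ZMOD q])).card : ℝ) := by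
    by_contra hcon
    exact hXE (hX₀ X ⟨⟨hdeg, ha, hab, hq⟩, not_le.1 hcon⟩ hX)
  have hlamD : |lamZ D| = 1 := by
    unfold lamZ
    rw [if_neg hD, abs_pow, abs_neg, abs_one, one_pow]
  have h2 : ∑ v ∈ (Icc (-(X : ℤ)) X).filter (fun v => v ≡ r [ZMOD q]),
      lamZ (f.leadingCoeff * ∏ i, (a i * v + b i)) =
      lamZ D * ∑ v ∈ (Icc (-(X : ℤ)) X).filter (fun v => v ≡ r [ZMOD q]), lamZ (f.eval v) := by
    rw [mul_sum]
    apply sum_congr rfl
    intro v _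
    rw [← lamZ_mul, hval]
  rw [h2, abs_mul, hlamD, one_mul] at h1
  refine h1.trans ?_
  apply mul_le_mul_of_nonneg_right _ (Nat.cast_nonneg _)
  linarith

end Pool.Agent.H615.SP
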