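import Mathlib
import Pool.Agent.H615.SP.C

/-! Polynomials a product of translates of which is a square times a polynomial with few roots. -/

set_option autoImplicit false

namespace Pool.Agent.H615.SP

open Finset Polynomial

/-- the progression `r + q ℤ` in `[-X, X]` -/
noncomputable def prog (q : ℕ) (r : ℤ) (X : ℕ) : Finset ℤ := (Icc (-(X : ℤ)) X).filter (fun v => v ≡ r [ZMOD q])

/-- the sum of the values of the Liouville function -/
noncomputable def S (f : ℤ[X]) (q : ℕ) (r : ℤ) (X : ℕ) : ℝ := ∑ v ∈ prog q r X, lamZ (f.eval v)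

lemma mem_prog {q : ℕ} {r : ℤ} {X : ℕ} {v : ℤ} : v ∈ prog q r X ↔ (-(X : ℤ) ≤ v ∧ v ≤ X) ∧ v ≡ r [ZMOD q] := by
  unfold prog
  rw [mem_filter, mem_Icc]

lemma lamZ_val (m : ℤ) : lamZ m = 1 ∨ lamZ m = -1 ∨ lamZ m = 0 := by
  unfold lamZ
  split_ifs
  · exact Or.inr (Or.inr rfl)
  · rcases neg_one_pow_eq_or ℝ (ArithmeticFunction.cardFactors m.natAbs) with h | h
    · exact Or.inl h
    · exact Or.inr (Or.inl h)

lemma lamZ_sq (m : ℤ) (hm : m ≠ 0) : lamZ m * lamZ m = 1 := by
  unfold lamZ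
  rw [if_neg hm, ← mul_pow]
  norm_num

lemma lamZ_prod' {ι : Type*} (s : Finset ι) (g : ι → ℤ) : lamZ (∏ i ∈ s, g i) = ∏ i ∈ s, lamZ (g i) := by
  classical
  induction s using Finset.induction_on with
  | empty => simp [lamZ]
  | insert i s hi ih => rw [prod_insert hi, prod_insert hi, lamZ_mul, ih]

/-- the pointwise inequality -/
lemma ptw {ι : Type*} (s : Finset ι) (hs : s.Nonempty) (y : ι → ℝ) (hy : ∀ i ∈ s, y i = 1 ∨ y i = -1 ∨ y i = 0) :
    ∑ i ∈ s, y i ≤ (s.card : ℝ) - 1 + ∏ i ∈ s, y i := by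
  classical
  have hle : ∀ i ∈ s, y i ≤ 1 := by
    intro i hi
    rcases hy i hi with h | h | h <;> rw [h] <;> norm_num
  by_cases hall : ∀ i ∈ s, y i = 1
  · rw [sum_congr rfl hall, prod_congr rfl hall]
    simp
  · push Not at hall
    obtain ⟨i, hi, hi1⟩ := hall
    have hsum : ∑ j ∈ s, y j = y i + ∑ j ∈ s.erase i, y j := (add_sum_erase s y hi).symm
    have h2 : ∑ j ∈ s.erase i, y j ≤ (s.card : ℝ) - 1 := by
      refine (sum_le_sum (g := fun _ => (1 : ℝ)) fun j hj => hle j (mem_of_mem_erase hj)).trans ?_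
      rw [sum_const, nsmul_eq_mul, mul_one, card_erase_of_mem hi, Nat.cast_sub (card_pos.2 hs)]
      simp
    rcases hy i hi with h | h | h
    · exact absurd h hi1
    · have h3 : -1 ≤ ∏ j ∈ s, y j := by
        have h4 : |∏ j ∈ s, y j| ≤ 1 := by
          rw [abs_prod]
          apply prod_le_one (fun _ _ => abs_nonneg _)
          intro j hj
          rcases hy j hj with h | h | h <;> rw [h] <;> norm_num
        exact (abs_le.1 h4).1
      rw [hsum, h]
      linarith
    · have h3 : ∏ j ∈ s, y j = 0 := prod_eq_zero hi h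
      rw [hsum, h, h3]
      linarith

lemma card_le (q : ℕ) (r : ℤ) (X : ℕ) (h : ℤ) (hq : (q : ℤ) ∣ h) :
    (((prog q r X).image (fun v => v + h) \ prog q r X).card : ℝ) ≤ |(h : ℝ)| := by
  classical
  have hsub : (prog q r X).image (fun v => v + h) \ prog q r X ⊆ Ioc (X : ℤ) (X + h) ∪ Ico (-(X : ℤ) + h) (-(X : ℤ)) := by
    intro v hv
    rw [mem_sdiff, mem_image] at hv
    obtain ⟨⟨w, hw, rfl⟩, hv2⟩ := hv
    rw [mem_prog] at hw hv2
    have h1 : w + h ≡ r [ZMOD q] := by
      have h2 : w + h ≡ w + 0 [ZMOD q] := Int.ModEq.add_left _ (Int.modEq_zero_iff_dvd.2 hq)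
      rw [add_zero] at h2
      exact h2.trans hw.2
    rw [mem_union, mem_Ioc, mem_Ico]
    by_contra hcon
    push Not at hcon
    apply hv2
    refine ⟨⟨?_, ?_⟩, h1⟩
    · by_contra h3
      push Not at h3
      have := hcon.2 (by omega)
      omega
    · by_contra h3
      push Not at h3
      have := hcon.1 h3
      omega
  have h1 := (card_le_card hsub).trans (card_union_le _ _)
  rw [Int.card_Ioc, Int.card_Ico] at h1
  have h2 : (X + h - X : ℤ).toNat + (-(X : ℤ) - (-(X : ℤ) + h)).toNat = h.natAbs := by omega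
  rw [h2] at h1
  have h3 : ((h.natAbs : ℕ) : ℝ) = |(h : ℝ)| := by
    rw [Nat.cast_natAbs]
    push_cast
    rfl
  rw [← h3]
  exact_mod_cast h1

lemma shift_sum (f : ℤ[X]) (q : ℕ) (r : ℤ) (X : ℕ) (h : ℤ) (hq : (q : ℤ) ∣ h) :
    |∑ v ∈ prog q r X, lamZ (f.eval (v + h)) - S f q r X| ≤ 2 * |(h : ℝ)| := by
  classical
  unfold S
  set P := prog q r X with hP
  have hinj : Function.Injective (fun v : ℤ => v + h) := fun x y hxy => by simpa using hxy
  have e1 : ∑ v ∈ P, lamZ (f.eval (v + h)) = ∑ v ∈ P.image (fun v => v + h), lamZ (f.eval v) := by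
    rw [sum_image (fun x _ y _ hxy => hinj hxy)]
  have e2 := sum_sdiff_sub_sum_sdiff (s₁ := P) (s₂ := P.image (fun v => v + h)) (f := fun v => lamZ (f.eval v))
  have hc := card_le q r X h hq
  have hc2 : ((P \ P.image (fun v => v + h)).card : ℝ) ≤ |(h : ℝ)| := by
    have h5 : (P \ P.image (fun v => v + h)).card = (P.image (fun v => v + h) \ P).card := by
      have h6 : (P.image (fun v => v + h)).card = P.card := card_image_of_injective _ hinj
      have h7 := card_sdiff_add_card_inter P (P.image (fun v => v + h))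
      have h8 := card_sdiff_add_card_inter (P.image (fun v => v + h)) P
      rw [inter_comm] at h8
      omega
    rw [h5]
    exact hc
  have hb : ∀ s : Finset ℤ, |∑ v ∈ s, lamZ (f.eval v)| ≤ s.card := by
    intro s
    refine (abs_sum_le_sum_abs _ _).trans ?_
    refine (sum_le_sum (g := fun _ => (1 : ℝ)) fun v _ => lamZ_le _).trans ?_
    rw [sum_const, nsmul_eq_mul, mul_one]
  have h3 := hb (P.image (fun v => v + h) \ P)
  have h4 := hb (P \ P.image (fun v => v + h))
  have h9 : ∑ v ∈ P, lamZ (f.eval (v + h)) - ∑ v ∈ P, lamZ (f.eval v) =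
      ∑ v ∈ P.image (fun v => v + h) \ P, lamZ (f.eval v) - ∑ v ∈ P \ P.image (fun v => v + h), lamZ (f.eval v) := by
    rw [e1]
    linarith
  rw [h9]
  have h10 := abs_sub (∑ v ∈ P.image (fun v => v + h) \ P, lamZ (f.eval v))
    (∑ v ∈ P \ P.image (fun v => v + h), lamZ (f.eval v))
  linarith

theorem shift_bound (f g w : ℤ[X]) (hf : f ≠ 0) (H : Finset ℤ) (hH : H.Nonempty) (q : ℕ) (r : ℤ)
    (hHq : ∀ h ∈ H, (q : ℤ) ∣ h) (hprod : ∏ h ∈ H, f.comp (X + C h) = g ^ 2 * w) :
    ∃ K : ℝ, ∀ X : ℕ, (H.card : ℝ) * |S f q r X| ≤ ((H.card : ℝ) - 1) * (prog q r X).card + |S w q r X| + K := by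
  classical
  have hg : g ≠ 0 := by
    intro h
    have h1 : ∏ h ∈ H, f.comp (X + C h) ≠ 0 := by
      rw [prod_ne_zero_iff]
      intro h _ h2
      have h3 : (f.comp (X + C h)).comp (X - C h) = 0 := by rw [h2, zero_comp]
      rw [comp_assoc] at h3
      simp at h3
      exact hf h3
    apply h1
    rw [hprod, h]
    simp
  refine ⟨2 * ∑ h ∈ H, |(h : ℝ)| + g.natDegree, fun X => ?_⟩
  set P := prog q r X with hP
  -- the sign
  obtain ⟨s, hs, hsS⟩ : ∃ s : ℝ, (s = 1 ∨ s = -1) ∧ s * S f q r X = |S f q r X| := by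
    rcases le_total 0 (S f q r X) with h | h
    · exact ⟨1, Or.inl rfl, by rw [one_mul, abs_of_nonneg h]⟩
    · exact ⟨-1, Or.inr rfl, by rw [abs_of_nonpos h]; ring⟩
  have hs1 : |s| = 1 := by rcases hs with h | h <;> rw [h] <;> norm_num
  -- the sum over the translates
  have h1 : (H.card : ℝ) * |S f q r X| - 2 * ∑ h ∈ H, |(h : ℝ)| ≤ ∑ v ∈ P, ∑ h ∈ H, s * lamZ (f.eval (v + h)) := by
    rw [sum_comm]
    have h2 : ∀ h ∈ H, |S f q r X| - 2 * |(h : ℝ)| ≤ ∑ v ∈ P, s * lamZ (f.eval (v + h)) := by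
      intro h hh
      rw [← mul_sum, ← hsS]
      have h3 := shift_sum f q r X h (hHq h hh)
      have h4 : |s * (∑ v ∈ P, lamZ (f.eval (v + h)) - S f q r X)| ≤ 2 * |(h : ℝ)| := by
        rw [abs_mul, hs1, one_mul]
        exact h3
      have h5 := (abs_le.1 h4).1
      linarith
    have h3 := sum_le_sum h2
    rw [sum_sub_distrib, sum_const, nsmul_eq_mul, ← mul_sum] at h3
    exact h3
  -- the pointwise inequality
  have h2 : ∀ v ∈ P, ∑ h ∈ H, s * lamZ (f.eval (v + h)) ≤
      (H.card : ℝ) - 1 + s ^ H.card * (lamZ (g.eval v) * lamZ (g.eval v) * lamZ (w.eval v)) := by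
    intro v _
    have h3 := ptw H hH (fun h => s * lamZ (f.eval (v + h))) (by
      intro h _
      rcases hs with h1 | h1 <;> rcases lamZ_val (f.eval (v + h)) with h2 | h2 | h2 <;>
        simp only [h1, h2] <;> norm_num)
    refine h3.trans (le_of_eq ?_)
    congr 1
    rw [prod_mul_distrib, prod_const]
    congr 1
    rw [← lamZ_prod', ← lamZ_mul, ← lamZ_mul]
    congr 1
    have h4 := congrArg (eval v) hprod
    rw [eval_prod, eval_mul, eval_pow] at h4
    rw [← pow_two, ← h4]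
    apply prod_congr rfl
    intro h _
    rw [eval_comp, eval_add, eval_X, eval_C]
  have h3 := sum_le_sum h2
  rw [sum_add_distrib, sum_const, nsmul_eq_mul, ← mul_sum] at h3
  -- the right side
  have h4 : |∑ v ∈ P, lamZ (g.eval v) * lamZ (g.eval v) * lamZ (w.eval v) - S w q r X| ≤ g.natDegree := by
    unfold S
    rw [← sum_sub_distrib]
    have h5 : ∀ v ∈ P, |lamZ (g.eval v) * lamZ (g.eval v) * lamZ (w.eval v) - lamZ (w.eval v)| ≤
        if g.eval v = 0 then (1 : ℝ) else 0 := by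
      intro v _
      split_ifs with h
      · rw [h]
        unfold lamZ
        rw [if_pos rfl, zero_mul, zero_mul, zero_sub, abs_neg]
        exact lamZ_le _
      · rw [lamZ_sq _ h, one_mul, sub_self, abs_zero]
    refine (abs_sum_le_sum_abs _ _).trans ((sum_le_sum h5).trans ?_)
    rw [← sum_filter, sum_const, nsmul_eq_mul, mul_one]
    have h6 : P.filter (fun v => g.eval v = 0) ⊆ g.roots.toFinset := by
      intro v hv
      rw [mem_filter] at hv
      rw [Multiset.mem_toFinset, mem_roots hg]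
      exact hv.2
    have h7 := (card_le_card h6).trans (Multiset.toFinset_card_le _)
    exact_mod_cast h7.trans (card_roots' g)
  have h5 : s ^ H.card * ∑ v ∈ P, lamZ (g.eval v) * lamZ (g.eval v) * lamZ (w.eval v) ≤
      |S w q r X| + g.natDegree := by
    have h6 : |s ^ H.card * ∑ v ∈ P, lamZ (g.eval v) * lamZ (g.eval v) * lamZ (w.eval v)| ≤
        |S w q r X| + g.natDegree := by
      rw [abs_mul, abs_pow, hs1, one_pow, one_mul]
      have h7 := abs_sub_abs_le_abs_sub (∑ v ∈ P, lamZ (g.eval v) * lamZ (g.eval v) * lamZ (w.eval v)) (S w q r X)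
      linarith
    exact (le_abs_self _).trans h6
  have h6 : (P.card : ℝ) * ((H.card : ℝ) - 1) = ((H.card : ℝ) - 1) * P.card := mul_comm _ _
  rw [h6] at h3
  linarith

end Pool.Agent.H615.SP
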