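import Mathlib
import Pool.Agent.H615.SP.D

/-! The theorem. -/

set_option autoImplicit false

namespace Pool.Agent.H615.SP

open Finset Polynomial
open Pool.Agent.Y958.U

lemma card_ge (q : ℕ) (hq : 1 ≤ q) (r : ℤ) (X : ℕ) : 2 * ((X : ℝ) / q) - 1 ≤ ((prog q r X).card : ℝ) := by
  classical
  have hq0 : (0 : ℤ) < q := by exact_mod_cast hq
  set T : ℤ → Prop := fun v => v ≡ r [ZMOD q] with hT
  change 2 * ((X : ℝ) / q) - 1 ≤ (((Icc (-(X : ℤ)) X).filter T).card : ℝ)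
  have h3 := Int.Ioc_filter_modEq_card (-(X : ℤ)) (X : ℤ) hq0 r
  have h4 : ((Ioc (-(X : ℤ)) X).filter T).card ≤ ((Icc (-(X : ℤ)) X).filter T).card :=
    card_le_card (filter_subset_filter _ Ioc_subset_Icc_self)
  have h5 : (⌊(((X : ℤ) : ℚ) - (r : ℤ)) / ((q : ℤ) : ℚ)⌋ : ℤ) - ⌊(((-(X : ℤ) : ℤ) : ℚ) - (r : ℤ)) / ((q : ℤ) : ℚ)⌋ ≤
      (((Icc (-(X : ℤ)) X).filter T).card : ℤ) := by
    refine le_trans ?_ (Nat.cast_le.2 h4)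
    refine le_trans (le_max_left _ 0) (le_of_eq ?_)
    exact h3.symm
  have h6 : (((X : ℤ) : ℚ) - (r : ℤ)) / ((q : ℤ) : ℚ) - 1 - (((-(X : ℤ) : ℤ) : ℚ) - (r : ℤ)) / ((q : ℤ) : ℚ) ≤
      (((Icc (-(X : ℤ)) X).filter T).card : ℚ) := by
    have h7 := Int.sub_one_lt_floor ((((X : ℤ) : ℚ) - (r : ℤ)) / ((q : ℤ) : ℚ))
    have h8 := Int.floor_le ((((-(X : ℤ) : ℤ) : ℚ) - (r : ℤ)) / ((q : ℤ) : ℚ))
    have h9 : ((⌊(((X : ℤ) : ℚ) - (r : ℤ)) / ((q : ℤ) : ℚ)⌋ : ℤ) : ℚ) -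
        ((⌊(((-(X : ℤ) : ℤ) : ℚ) - (r : ℤ)) / ((q : ℤ) : ℚ)⌋ : ℤ) : ℚ) ≤
        (((Icc (-(X : ℤ)) X).filter T).card : ℚ) := by exact_mod_cast h5
    linarith
  have hqQ : (0 : ℚ) < q := by exact_mod_cast hq
  have h7 : 2 * ((X : ℚ) / q) - 1 ≤ (((Icc (-(X : ℤ)) X).filter T).card : ℚ) := by
    refine le_trans (le_of_eq ?_) h6
    push_cast
    field_simp
    ring
  have h8 : ((2 * ((X : ℚ) / q) - 1 : ℚ) : ℝ) ≤ (((((Icc (-(X : ℤ)) X).filter T).card : ℕ) : ℚ) : ℝ) :=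
    Rat.cast_le.2 h7
  push_cast at h8
  exact h8

lemma card_large (q : ℕ) (hq : 1 ≤ q) (r : ℤ) (K : ℝ) : ∃ X₀ : ℕ, ∀ X : ℕ, X₀ ≤ X → K ≤ ((prog q r X).card : ℝ) := by
  refine ⟨⌈(|K| + 1) * q⌉₊, fun X hX => ?_⟩
  have hqR : (0 : ℝ) < q := by exact_mod_cast hq
  have h1 : (|K| + 1) * q ≤ X := (Nat.le_ceil _).trans (by exact_mod_cast hX)
  rw [← le_div_iff₀ hqR] at h1
  have h2 := card_ge q hq r X
  have h3 := le_abs_self K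
  have h4 := abs_nonneg K
  linarith

/-- all the roots are rational and simple -/
def SplitSimple (f : ℤ[X]) : Prop :=
  1 ≤ f.natDegree ∧ (f.map (Int.castRingHom ℚ)).Splits ∧ Squarefree (f.map (Int.castRingHom ℚ))

theorem main : ∃ E : Set ℕ, LZ E ∧
    (∀ f : ℤ[X], SplitSimple f → ∀ (q : ℕ) (r : ℤ), 1 ≤ q → ∀ ε : ℝ, 0 < ε →
      ∃ X₀ : ℕ, ∀ X : ℕ, X₀ ≤ X → X ∉ E → |S f q r X| ≤ (kap f.natDegree + ε) * (prog q r X).card) ∧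
    (∀ f g w : ℤ[X], f ≠ 0 → SplitSimple w → (w.natDegree = 2 ∨ Odd w.natDegree) → ∀ (q : ℕ) (r : ℤ), 1 ≤ q →
      ∀ H : Finset ℤ, H.Nonempty → (∀ h ∈ H, (q : ℤ) ∣ h) → ∏ h ∈ H, f.comp (X + C h) = g ^ 2 * w →
        ∀ ε : ℝ, 0 < ε → ∃ X₀ : ℕ, ∀ X : ℕ, X₀ ≤ X → X ∉ E →
          |S f q r X| ≤ (1 - 1 / (H.card : ℝ) + ε) * (prog q r X).card) := by
  classical
  obtain ⟨E, hE, hfin⟩ := final
  have h1 : ∀ f : ℤ[X], SplitSimple f → ∀ (q : ℕ) (r : ℤ), 1 ≤ q → ∀ ε : ℝ, 0 < ε →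
      ∃ X₀ : ℕ, ∀ X : ℕ, X₀ ≤ X → X ∉ E → |S f q r X| ≤ (kap f.natDegree + ε) * (prog q r X).card :=
    fun f hf q r hq ε hε => hfin f hf.1 hf.2.1 hf.2.2 q r hq ε hε
  refine ⟨E, hE, h1, fun f g w hf hw hwd q r hq H hH hHq hprod ε hε => ?_⟩
  obtain ⟨K, hK⟩ := shift_bound f g w hf H hH q r hHq hprod
  obtain ⟨X₁, hX₁⟩ := h1 w hw q r hq (ε / 2) (by positivity)
  obtain ⟨X₂, hX₂⟩ := card_large q hq r (2 * K / ε)
  refine ⟨X₁ + X₂, fun X hX hXE => ?_⟩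
  have h2 := hX₁ X (by omega) hXE
  have h3 := hX₂ X (by omega)
  have h4 := hK X
  have hkap : kap w.natDegree = 0 := by
    unfold kap
    rw [if_pos (by tauto)]
  rw [hkap, zero_add] at h2
  rw [div_le_iff₀ hε] at h3
  have hc : (1 : ℝ) ≤ H.card := by exact_mod_cast card_pos.2 hH
  have h5 : (H.card : ℝ) * |S f q r X| ≤ (H.card : ℝ) * ((1 - 1 / (H.card : ℝ) + ε) * (prog q r X).card) := by
    have e1 : (H.card : ℝ) * ((1 - 1 / (H.card : ℝ) + ε) * (prog q r X).card) =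
        ((H.card : ℝ) - 1) * (prog q r X).card + H.card * ε * (prog q r X).card := by
      field_simp
    rw [e1]
    have h6 : (0 : ℝ) ≤ (prog q r X).card := Nat.cast_nonneg _
    have h7 : ε * (prog q r X).card ≤ H.card * ε * (prog q r X).card := by
      apply mul_le_mul_of_nonneg_right _ h6
      nlinarith
    linarith
  exact le_of_mul_le_mul_left h5 (by linarith)

end Pool.Agent.H615.SP
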